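import Mathlib
import Pool.Agent.H423.AB.LAmp

/-!
# The inequality with `H` and the number of the representations with the same `c`

`H (n) = γ (n) / (log γ (n)) ^ ω (n)`. Fix `N ≥ 1` and `δ₀ > 0`. Only the admissible triples `(a, c - a, c)` with
`N ∣ a` and `a ≤ δ₀ c` are counted below.

(1) The statement of Q1 holds if and only if for every `δ > 0` there is `ε < δ` such that each large `c` has
fewer than `ε ^ (-s)` representations with `c ≥ H (abc) ^ (1 + ε)`. Here `s ≥ 0` is any number with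
`∑ 3 ≤ m ≤ M, (m - 2) m ^ (-s) > 1` for some `M`, for example `12 / 5`.

(2) `c ≤ H exp (K log H / log log H)` holds for all admissible triples for some `K`, where
`H = max (H (abc), e ^ e)`, if and only if for some `K` and `B` each large `c` has at most `B` representations with
`c > H exp (K log H / log log H)`.

(3) The same in any scale: let `g` be a scale of order at most `θ`. If each large `c` has at most `B` representations
with `c ≥ H (abc) exp (t g (log c))`, then `c < H (abc) exp (κ t (1 + B ^ (1 / s)) ^ θ g (log c))` for all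
admissible triples with large `c`, where `κ` depends on `s`, `N`, `δ₀` and the constants of the scale.

The proof: for `2 ≤ k ≤ m - 1` the terms of the binomial expansion of `c ^ m = (a + b) ^ m` are divided into those
which are divisible by `a ^ k` and those which are divisible by `b ^ (m + 1 - k)`; the two partial sums are the
members of a new triple. No prime dividing `a b c` is lost, and so `H` is multiplied by at most a constant times
`c ^ (m - 1)` although `H` is very far from being multiplicative. The composition semigroup of these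
maps is free.
-/

set_option autoImplicit false

namespace Pool.Agent.Results.MP_14cf73_nt.BoundedMultiplicity

open Pool.Agent.N757.OH Pool.Agent.H423.AB

/-- **The abc-type inequality with `H` and the multiplicity of the exceptional representations.** -/
theorem result (N : ℕ) (hN : 1 ≤ N) (δ₀ : ℝ) (hδ₀ : 0 < δ₀) :
    (∀ (s : ℝ) (M : ℕ), 0 ≤ s → 1 < ∑ m ∈ Finset.Icc 3 M, ((m : ℝ) - 2) * (m : ℝ) ^ (-s) →
      (HQ1 ↔ ∀ δ : ℝ, 0 < δ → ∃ ε : ℝ, 0 < ε ∧ ε < δ ∧ ∃ c₀ : ℕ, ∀ c : ℕ, c₀ < c →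
        ((excH N δ₀ ε c).ncard : ℝ) < ε ^ (-s))) ∧
    (HQ1 ↔ ∀ δ : ℝ, 0 < δ → ∃ ε : ℝ, 0 < ε ∧ ε < δ ∧ ∃ c₀ : ℕ, ∀ c : ℕ, c₀ < c →
        ((excH N δ₀ ε c).ncard : ℝ) < ε ^ (-(12 / 5 : ℝ))) ∧
    (BdK ↔ ∃ K B : ℝ, ∃ c₀ : ℕ, ∀ c : ℕ, c₀ < c → ((excK N δ₀ K c).ncard : ℝ) ≤ B) ∧
    ∀ (s : ℝ) (M : ℕ), 0 < s → 1 < ∑ m ∈ Finset.Icc 3 M, ((m : ℝ) - 2) * (m : ℝ) ^ (-s) →
      ∀ θ G : ℝ, 0 ≤ θ → 1 ≤ G → ∃ κ : ℝ, 0 < κ ∧ ∀ (g : ℝ → ℝ) (x₀ : ℝ), Gauge g θ G x₀ →
        ∀ t B : ℝ, 0 < t → 0 ≤ B → FewG H N δ₀ (fun x => t * g x) B →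
          EvG H fun x => κ * t * (1 + B ^ (1 / s)) ^ θ * g x :=
  ⟨fun s M hs0 hs => multiplicityH s hs0 M hs N hN δ₀ hδ₀,
    multiplicityH (12 / 5) (by norm_num) 160 num N hN δ₀ hδ₀, bdK_iff N hN δ₀ hδ₀,
    fun s M hs0 hs θ G hθ hG => main_boundG radLike_H s hs0 M hs N hN δ₀ hδ₀ θ G hθ hG⟩

end Pool.Agent.Results.MP_14cf73_nt.BoundedMultiplicity
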