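import Mathlib
import Pool.Agent.H610.AbcH.Num

/-!
# Admissible triples with `c > H exp (4.2 log H / log log H)`

No hypothesis is assumed.  The problem file recalls that there are infinitely many admissible triples `a + b = c` with
`c > H exp (2 log H / log log H)`, where `H = max (H(abc), e ^ e)`.  Here the constant `2` is replaced by `4.2`
(more than twice as large), and `H` in the exponential function also by `c`.

Proof.  The exponents `0, 1, 2` are given to the odd primes `p ≤ 200 n`; the products are classified by their residue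
modulo a power of two and by their size.  The cost of a difference of two exponent vectors is (up to an embedding in
Euclidean space) the loss in `log H` caused by it.  A quantum packing inequality (skew information) for the product of
18 types of mixed one-prime states, which depend on `p / n`, shows that one class contains two vectors at small
distance.  The coprime parts of the two products and their difference form the triple.
-/

set_option autoImplicit false

namespace Pool.Agent.Results.MP_14cf73_nt.ConstantFourPointTwo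

open Finset Filter

/-- the radical `γ(n)`: the product of the distinct primes dividing `n` -/
def gam (n : ℕ) : ℕ := ∏ p ∈ n.primeFactors, p

/-- `H(n) = γ(n) / (log γ(n)) ^ ω(n)`, where `ω(n)` is the number of distinct primes dividing `n` (and `0 ^ 0 = 1`) -/
noncomputable def H (n : ℕ) : ℝ := (gam n : ℝ) / Real.log (gam n : ℝ) ^ n.primeFactors.card

/-- admissible triples: positive integers with `a + b = c` and `gcd (a, b, c) = 1` -/
def Admissible (a b c : ℕ) : Prop := 0 < a ∧ 0 < b ∧ a + b = c ∧ Nat.gcd a (Nat.gcd b c) = 1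

theorem infinite_of {S : Set (ℕ × ℕ × ℕ)} (h : ∀ M : ℕ, ∃ t ∈ S, M < t.2.2) : S.Infinite := by
  intro hf
  obtain ⟨M, hM⟩ := (hf.image (fun t => t.2.2)).bddAbove
  obtain ⟨t, ht, hlt⟩ := h M
  exact absurd (hM ⟨t, ht, rfl⟩) (not_le.2 hlt)

theorem H_lt {n : ℕ} {x y : ℝ} (h : Real.log (H n) < x - y) : H n * Real.exp y < Real.exp x := by
  rcases le_or_gt (H n) 0 with h0 | h0
  · exact lt_of_le_of_lt (mul_nonpos_of_nonpos_of_nonneg h0 (Real.exp_pos _).le) (Real.exp_pos _)
  · have h1 : H n < Real.exp (x - y) := by
      rw [← Real.log_lt_iff_lt_exp h0]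
      exact h
    calc H n * Real.exp y < Real.exp (x - y) * Real.exp y := by gcongr
      _ = Real.exp x := by rw [← Real.exp_add]; ring_nf

/-- **Infinitely many admissible triples with `c > H exp (4.2 log H / log log H)`**; in the first statement `log H` is
replaced by the larger `log c`. -/
theorem result :
    {t : ℕ × ℕ × ℕ | Admissible t.1 t.2.1 t.2.2 ∧
      H (t.1 * t.2.1 * t.2.2) * Real.exp (21 / 5 * Real.log t.2.2 / Real.log (Real.log t.2.2)) <
        (t.2.2 : ℝ)}.Infinite ∧
    {t : ℕ × ℕ × ℕ | Admissible t.1 t.2.1 t.2.2 ∧ ∃ h : ℝ,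
      h = max (H (t.1 * t.2.1 * t.2.2)) (Real.exp (Real.exp 1)) ∧
      h * Real.exp (21 / 5 * Real.log h / Real.log (Real.log h)) < (t.2.2 : ℝ)}.Infinite := by
  obtain ⟨K, hKdef⟩ : ∃ K : ℝ, K = 21 / 5 := ⟨_, rfl⟩
  rw [← hKdef]
  have hK0 : 0 < K := by rw [hKdef]; norm_num
  obtain ⟨F, hF⟩ := Pool.Agent.H610.AbcH.family
  have hmain := Pool.Agent.H610.AbcH.main F (by norm_num) (by norm_num) (by norm_num)
    (by exact_mod_cast hF) hK0 (by rw [hKdef]; norm_num)
  have key : ∀ M : ℕ, ∃ a b : ℕ, 0 < a ∧ 0 < b ∧ Nat.Coprime a b ∧ M < a + b ∧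
      Real.exp 1 * (K + 1) < Real.log ((a + b : ℕ) : ℝ) ∧
      Real.log (H (a * b * (a + b))) < Real.log ((a + b : ℕ) : ℝ) -
        K * Real.log ((a + b : ℕ) : ℝ) / Real.log (Real.log ((a + b : ℕ) : ℝ)) := by
    intro M
    obtain ⟨n, hn, hn2⟩ := (hmain.and
      (Pool.Agent.X2.AbcH.tendsto_X.eventually_gt_atTop (max (Real.log (M + 1)) (Real.exp 1 * (K + 1))))).exists
    obtain ⟨a, b, ha, hb, hab, h1, h2⟩ := hn
    rw [max_lt_iff] at hn2
    refine ⟨a, b, ha, hb, hab, ?_, hn2.2.trans_le h1, h2⟩
    have h3 := hn2.1.trans_le h1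
    have h4 := (Real.log_lt_log_iff (by positivity) (by exact_mod_cast (by omega : 0 < a + b))).1 h3
    have h5 : M + 1 < a + b := by exact_mod_cast h4
    omega
  have hadm : ∀ a b : ℕ, 0 < a → 0 < b → Nat.Coprime a b → Admissible a b (a + b) := by
    intro a b ha hb hab
    refine ⟨ha, hb, rfl, ?_⟩
    exact Nat.Coprime.coprime_dvd_right (Nat.gcd_dvd_left b (a + b)) hab
  constructor
  · apply infinite_of
    intro M
    obtain ⟨a, b, ha, hb, hab, hM, -, h⟩ := key M
    refine ⟨(a, b, a + b), ⟨hadm a b ha hb hab, ?_⟩, hM⟩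
    have h1 := H_lt h
    rwa [Real.exp_log (by exact_mod_cast (by omega : 0 < a + b))] at h1
  · apply infinite_of
    intro M
    obtain ⟨a, b, ha, hb, hab, hM, hbig, h⟩ := key M
    refine ⟨(a, b, a + b), ⟨hadm a b ha hb hab, _, rfl, ?_⟩, hM⟩
    show max (H (a * b * (a + b))) (Real.exp (Real.exp 1)) *
      Real.exp (K * Real.log (max (H (a * b * (a + b))) (Real.exp (Real.exp 1))) /
        Real.log (Real.log (max (H (a * b * (a + b))) (Real.exp (Real.exp 1))))) < ((a + b : ℕ) : ℝ)
    set c : ℝ := ((a + b : ℕ) : ℝ) with hc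
    have hc0 : 0 < c := by rw [hc]; exact_mod_cast (by omega : 0 < a + b)
    set N : ℝ := Real.log c with hN
    have he0 := Real.exp_pos 1
    have he1 : Real.exp 1 < N := by nlinarith
    have hN0 : 0 < N := he0.trans he1
    have hlN : 1 ≤ Real.log N := by
      rw [Real.le_log_iff_exp_le hN0]; exact he1.le
    rcases le_total (H (a * b * (a + b))) (Real.exp (Real.exp 1)) with h0 | h0
    · rw [max_eq_right h0, Real.log_exp, Real.log_exp, div_one, ← Real.exp_add,
        ← Real.lt_log_iff_exp_lt hc0]
      linarith
    · rw [max_eq_left h0]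
      have hH0 : 0 < H (a * b * (a + b)) := (Real.exp_pos _).trans_le h0
      set L : ℝ := Real.log (H (a * b * (a + b))) with hL
      have hL1 : Real.exp 1 ≤ L := by
        rw [hL, Real.le_log_iff_exp_le hH0]; exact h0
      have hLN : L ≤ N := by
        have : 0 ≤ K * N / Real.log N := by positivity
        linarith
      have hlL : 1 ≤ Real.log L := by
        rw [Real.le_log_iff_exp_le (by linarith)]; exact hL1
      -- `L / log L ≤ N / log N`
      have hmono : L / Real.log L ≤ N / Real.log N := by
        have h1 := Real.log_div_self_antitoneOn (show L ∈ {x | Real.exp 1 ≤ x} from hL1)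
          (show N ∈ {x | Real.exp 1 ≤ x} from he1.le) hLN
        simp only at h1
        rw [div_le_div_iff₀ (by linarith) (by linarith)]
        rw [div_le_div_iff₀ hN0 (by linarith)] at h1
        linarith
      have h2 : Real.log (H (a * b * (a + b))) < N - K * L / Real.log L := by
        have h3 : K * L / Real.log L ≤ K * N / Real.log N := by
          rw [mul_div_assoc, mul_div_assoc]
          exact mul_le_mul_of_nonneg_left hmono hK0.le
        linarith
      have h3 := H_lt h2
      rwa [hN, Real.exp_log hc0] at h3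

end Pool.Agent.Results.MP_14cf73_nt.ConstantFourPointTwo
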